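import Pool.Agent.H791R3.Mult.Three

/-!
# Continuity in the lengths
-/

open MeasureTheory Set
open scoped ContDiff

set_option autoImplicit false

namespace Pool.Agent.H791R3.Mult

open Pool.Agent.H456R3.Mult

/-! ## The symmetry -/

/-- The symmetry which exchanges lower and upper bars. -/
def tau (p : P) : P := (p.2.1, p.1, 2 - p.2.2)

theorem tau_tau (p : P) : tau (tau p) = p := by
  unfold tau
  ext <;> simp

theorem tau_smooth : ContDiff ℝ ∞ tau := by
  unfold tau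
  exact (contDiff_fst.comp contDiff_snd).prodMk (contDiff_fst.prodMk
    (contDiff_const.sub (contDiff_snd.comp contDiff_snd)))

theorem tau_cont : Continuous tau := tau_smooth.continuous

theorem tau_mp : MeasurePreserving tau (volume : Measure P) volume := by
  have h1 := (MeasureTheory.measurePreserving_prodAssoc (volume : Measure ℝ) (volume : Measure ℝ)
    (volume : Measure ℝ))
  have h2 : MeasurePreserving (Prod.map (Prod.swap : ℝ × ℝ → ℝ × ℝ) (fun z : ℝ => 2 - z))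
      (((volume : Measure ℝ).prod volume).prod volume)
      (((volume : Measure ℝ).prod volume).prod volume) :=
    Measure.measurePreserving_swap.prod (Measure.measurePreserving_sub_left (volume : Measure ℝ) (2 : ℝ))
  exact (h1.comp h2).comp (h1.symm _)

theorem tau_emb : MeasurableEmbedding tau :=
  (MeasurableEquiv.ofInvolutive tau tau_tau tau_cont.measurable).measurableEmbedding

theorem integral_tau (F : P → ℝ) : ∫ p, F (tau p) = ∫ p, F p :=
  tau_mp.integral_comp tau_emb F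

theorem dc_tau {Ω Ω' : Set P} (h : ∀ p, tau p ∈ Ω → p ∈ Ω') {f : P → ℝ} (hf : f ∈ Dc Ω) :
    (fun p => f (tau p)) ∈ Dc Ω' := by
  obtain ⟨h1, h2, h3⟩ := hf
  have h4 : tsupport (fun p => f (tau p)) ⊆ tau ⁻¹' tsupport f :=
    tsupport_comp_subset_preimage f tau_cont
  have h5 : IsCompact (tau ⁻¹' tsupport f) := by
    have : tau ⁻¹' tsupport f = tau '' tsupport f := by
      ext p
      constructor
      · intro hp
        exact ⟨tau p, hp, tau_tau p⟩
      · rintro ⟨q, hq, rfl⟩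
        rw [mem_preimage, tau_tau]
        exact hq
    rw [this]
    exact h2.isCompact.image tau_cont
  exact ⟨h1.comp tau_smooth, h5.of_isClosed_subset (isClosed_tsupport _) h4,
    fun p hp => h p (h3 (h4 hp))⟩

theorem fderiv_tau {f : P → ℝ} (hf : ContDiff ℝ ∞ f) (p v : P) :
    fderiv ℝ (fun p => f (tau p)) p v = fderiv ℝ f (tau p) (v.2.1, v.1, -v.2.2) := by
  have hg : ContDiff ℝ ∞ (fun p => f (tau p)) := hf.comp tau_smooth
  refine fderiv_line (c := fun t => (p.2.1 + t * v.2.1, p.1 + t * v.1, 2 - (p.2.2 + t * v.2.2)))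
    (hf.differentiable (by simp) _) (hg.differentiable (by simp) _) ?_ ?_
  · have h : ∀ a b : ℝ, HasDerivAt (fun t : ℝ => a + t * b) b 0 := by
      intro a b
      simpa using ((hasDerivAt_id (0 : ℝ)).mul_const b).const_add a
    exact (h _ _).prodMk ((h _ _).prodMk ((h _ _).const_sub 2))
  · intro t
    unfold tau
    simp

theorem gb_tau {f : P → ℝ} (hf : ContDiff ℝ ∞ f) (p : P) :
    gb (fun p => f (tau p)) (fun p => f (tau p)) p = gb f f (tau p) := by
  unfold gb dx dy dz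
  rw [fderiv_tau hf, fderiv_tau hf, fderiv_tau hf]
  simp only [neg_zero]
  have : ((0, 0, -1) : P) = -((0, 0, 1) : P) := by simp
  rw [this, map_neg]
  ring

theorem en_tau {f : P → ℝ} (hf : ContDiff ℝ ∞ f) : En (fun p => f (tau p)) = En f := by
  unfold En Eb
  rw [← integral_tau (fun p => gb f f p)]
  exact integral_congr_ae (Filter.Eventually.of_forall fun p => gb_tau hf p)

theorem ms_tau (f : P → ℝ) : Ms (fun p => f (tau p)) = Ms f := by
  unfold Ms Mb
  exact integral_tau (fun p => f p * f p)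

section
variable {m n : ℕ}

/-- Transposition. -/
def tr (s : Idx m n → ℝ) : Idx n m → ℝ := fun v => s v.swap

theorem tr_tr (s : Idx m n → ℝ) : tr (tr s) = s := by
  funext v
  unfold tr
  rw [Sum.swap_swap]

theorem bar_tr (M : ℝ) (s : Idx m n → ℝ) (v : Idx m n) (p : P) :
    tau p ∈ (bar n m M (tr s) v.swap).set ↔ p ∈ (bar m n M s v).set := by
  rcases v with i | j
  · unfold bar Box.set tau tr
    simp only [Sum.swap_inl, Sum.swap_inr, mem_prod, mem_Ioo]
    constructor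
    · rintro ⟨⟨h1, h2⟩, ⟨h3, h4⟩, h5, h6⟩
      exact ⟨⟨h3, h4⟩, ⟨h1, h2⟩, by linarith, by linarith⟩
    · rintro ⟨⟨h1, h2⟩, ⟨h3, h4⟩, h5, h6⟩
      exact ⟨⟨h3, h4⟩, ⟨h1, h2⟩, by linarith, by linarith⟩
  · unfold bar Box.set tau tr
    simp only [Sum.swap_inl, Sum.swap_inr, mem_prod, mem_Ioo]
    constructor
    · rintro ⟨⟨h1, h2⟩, ⟨h3, h4⟩, h5, h6⟩
      exact ⟨⟨h3, h4⟩, ⟨h1, h2⟩, by linarith, by linarith⟩
    · rintro ⟨⟨h1, h2⟩, ⟨h3, h4⟩, h5, h6⟩
      exact ⟨⟨h3, h4⟩, ⟨h1, h2⟩, by linarith, by linarith⟩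

theorem cube_tr (i j : ℕ) (w : ℝ) (p : P) : tau p ∈ cube (ctr j i) w ↔ p ∈ cube (ctr i j) w := by
  unfold cube ctr tau
  simp only [mem_prod, mem_Ioo]
  constructor
  · rintro ⟨⟨h1, h2⟩, ⟨h3, h4⟩, h5, h6⟩
    exact ⟨⟨h3, h4⟩, ⟨h1, h2⟩, by linarith, by linarith⟩
  · rintro ⟨⟨h1, h2⟩, ⟨h3, h4⟩, h5, h6⟩
    exact ⟨⟨h3, h4⟩, ⟨h1, h2⟩, by linarith, by linarith⟩

theorem om_tr (inc : Fin m → Fin n → Prop) (M w : ℝ) (s : Idx m n → ℝ) (p : P) :
    tau p ∈ Om n m (fun j i => inc i j) M w (tr s) ↔ p ∈ Om m n inc M w s := by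
  unfold Om
  simp only [mem_union, mem_iUnion]
  constructor
  · rintro (⟨v, hv⟩ | ⟨j, i, hij, h⟩)
    · left
      refine ⟨v.swap, ?_⟩
      rw [← bar_tr, Sum.swap_swap]
      exact hv
    · right
      exact ⟨i, j, hij, (cube_tr _ _ _ _).1 h⟩
  · rintro (⟨v, hv⟩ | ⟨i, j, hij, h⟩)
    · left
      exact ⟨v.swap, (bar_tr M s v p).2 hv⟩
    · right
      exact ⟨j, i, hij, (cube_tr _ _ _ _).2 h⟩

theorem ef_tr (M : ℝ) (s : Idx m n → ℝ) (v : Idx m n) (p : P) :
    (bar n m M (tr s) v.swap).ef (tau p) = (bar m n M s v).ef p := by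
  have s1 : ∀ z : ℝ, Real.sin (Real.pi * (2 - z - 1) / (2 - 1)) = Real.sin (Real.pi * (z - 0) / (1 - 0)) := by
    intro z
    have : Real.pi * (2 - z - 1) / (2 - 1) = Real.pi - Real.pi * (z - 0) / (1 - 0) := by ring
    rw [this, Real.sin_pi_sub]
  have s2 : ∀ z : ℝ, Real.sin (Real.pi * (2 - z - 0) / (1 - 0)) =
      Real.sin (Real.pi * (z - 1) / (2 - 1)) := by
    intro z
    have : Real.pi * (2 - z - 0) / (1 - 0) = Real.pi - Real.pi * (z - 1) / (2 - 1) := by ring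
    rw [this, Real.sin_pi_sub]
  rcases v with i | j
  · unfold bar Box.ef tau tr
    simp only [Sum.swap_inl, Sum.swap_inr]
    rw [s1 p.2.2]
    have e : (2 * ((i : ℕ) : ℝ) + 1 - 2 * ((i : ℕ) : ℝ)) * (M - -s (Sum.inl i)) * (2 - 1) =
      (M - -s (Sum.inl i)) * (2 * ((i : ℕ) : ℝ) + 1 - 2 * ((i : ℕ) : ℝ)) * (1 - 0) := by ring
    rw [e]
    ring
  · unfold bar Box.ef tau tr
    simp only [Sum.swap_inl, Sum.swap_inr]
    rw [s2 p.2.2]
    have e : (M - -s (Sum.inr j)) * (2 * ((j : ℕ) : ℝ) + 1 - 2 * ((j : ℕ) : ℝ)) * (1 - 0) =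
      (2 * ((j : ℕ) : ℝ) + 1 - 2 * ((j : ℕ) : ℝ)) * (M - -s (Sum.inr j)) * (2 - 1) := by ring
    rw [e]
    ring

theorem l_tr (M : ℝ) (s : Idx m n → ℝ) (v : Idx m n) (f : P → ℝ) :
    (bar n m M (tr s) v.swap).l f = (bar m n M s v).l (fun p => f (tau p)) := by
  unfold Box.l
  have h := tau_mp.setIntegral_preimage_emb tau_emb
    (fun p => (bar n m M (tr s) v.swap).ef p * f p) (bar n m M (tr s) v.swap).set
  have e : tau ⁻¹' (bar n m M (tr s) v.swap).set = (bar m n M s v).set := by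
    ext p
    exact bar_tr M s v p
  rw [← h, e]
  refine integral_congr_ae (Filter.Eventually.of_forall fun p => ?_)
  simp only
  rw [ef_tr]

end

/-! ## The steps -/

/-- Closeness of the domains. -/
def Near (m n : ℕ) (inc : Fin m → Fin n → Prop) (M w : ℝ) (s s' : Idx m n → ℝ) (ε : ℝ) : Prop :=
  ∀ f ∈ Dc (Om m n inc M w s),
      ∃ g ∈ Dc (Om m n inc M w s'), |En g - En f| ≤ ε * En f ∧ |Ms g - Ms f| ≤ ε * Ms f ∧
        ∀ v, |(bar m n M s' v).l g - (bar m n M s v).l f| ≤ ε * √(Ms f)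

theorem en_nonneg (f : P → ℝ) : 0 ≤ En f := integral_nonneg fun p => gb_nonneg f p

theorem ms_nonneg (f : P → ℝ) : 0 ≤ Ms f := integral_nonneg fun p => mul_self_nonneg _

theorem stepA (m n : ℕ) (inc : Fin m → Fin n → Prop) (M w : ℝ) (hM : 1 ≤ M) (hw : 0 < w)
    (hw' : w ≤ 1 / 8) (ε : ℝ) (hε : 0 < ε) : ∃ δ : ℝ, 0 < δ ∧
    ∀ s s' : Idx m n → ℝ, (∀ v, |s v - 1 / 2| ≤ 1 / 4) → (∀ v, |s' v - 1 / 2| ≤ 1 / 4) →
      (∀ v, |s v - s' v| ≤ δ) → (∀ j, s (Sum.inr j) = s' (Sum.inr j)) →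
      Near m n inc M w s s' ε := by
  obtain ⟨L, hL0, hL⟩ := deriv_eta_bound
  set K : ℝ := 64 + 4 * m * L with hK
  have hK0 : 0 < K := by positivity
  set D : ℝ := 8 + √(M + 1) * √2 with hD
  have hD0 : 0 < D := by positivity
  refine ⟨min (1 / (2 * K)) (ε / (K * D)), by positivity, fun s s' hs hs' hss hr => ?_⟩
  set δ := min (1 / (2 * K)) (ε / (K * D)) with hδ
  have hδ0 : 0 < δ := by positivity
  have h1 : K * δ ≤ 1 / 2 := by
    have : δ ≤ 1 / (2 * K) := min_le_left _ _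
    calc K * δ ≤ K * (1 / (2 * K)) := mul_le_mul_of_nonneg_left this hK0.le
      _ = 1 / 2 := by field_simp
  have h2 : K * δ * D ≤ ε := by
    have : δ ≤ ε / (K * D) := min_le_right _ _
    calc K * δ * D ≤ K * (ε / (K * D)) * D :=
          mul_le_mul_of_nonneg_right (mul_le_mul_of_nonneg_left this hK0.le) hD0.le
      _ = ε := by field_simp
  have mv := moveA (inc := inc) hM hw hw' hL0 hL hδ0.le h1 s s' hs hs' hss hr
  intro f hf
  obtain ⟨A, hA⟩ := mv.bdd
  refine ⟨_, comp_mem mv.smooth hA mv.om hf, ?_, ?_, ?_⟩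
  · refine (mv.en hf).trans (mul_le_mul_of_nonneg_right ?_ (en_nonneg f))
    have : K * δ * 8 ≤ K * δ * D :=
      mul_le_mul_of_nonneg_left (by rw [hD]; have : 0 ≤ √(M + 1) * √2 := by positivity
                                    linarith) (by positivity)
    linarith
  · refine (mv.ms hf).1.trans (mul_le_mul_of_nonneg_right ?_ (ms_nonneg f))
    have : K * δ * 2 ≤ K * δ * D :=
      mul_le_mul_of_nonneg_left (by rw [hD]; have : 0 ≤ √(M + 1) * √2 := by positivity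
                                    linarith) (by positivity)
    linarith
  · intro v
    refine (mv.lv (by linarith) hf v).trans ?_
    rw [Real.sqrt_mul (by norm_num : (0 : ℝ) ≤ 2), ← mul_assoc (√(M + 1)), ← mul_assoc]
    refine mul_le_mul_of_nonneg_right ?_ (Real.sqrt_nonneg _)
    have : K * δ * (√(M + 1) * √2) ≤ K * δ * D :=
      mul_le_mul_of_nonneg_left (by rw [hD]; linarith) (by positivity)
    exact this.trans h2

theorem stepB (m n : ℕ) (inc : Fin m → Fin n → Prop) (M w : ℝ) (hM : 1 ≤ M) (hw : 0 < w)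
    (hw' : w ≤ 1 / 8) (ε : ℝ) (hε : 0 < ε) : ∃ δ : ℝ, 0 < δ ∧
    ∀ s s' : Idx m n → ℝ, (∀ v, |s v - 1 / 2| ≤ 1 / 4) → (∀ v, |s' v - 1 / 2| ≤ 1 / 4) →
      (∀ v, |s v - s' v| ≤ δ) → (∀ i, s (Sum.inl i) = s' (Sum.inl i)) →
      Near m n inc M w s s' ε := by
  obtain ⟨δ, hδ, h⟩ := stepA n m (fun j i => inc i j) M w hM hw hw' ε hε
  refine ⟨δ, hδ, fun s s' hs hs' hss hr f hf => ?_⟩
  have hF : (fun p => f (tau p)) ∈ Dc (Om n m (fun j i => inc i j) M w (tr s)) := by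
    refine dc_tau (fun p hp => ?_) hf
    have := (om_tr inc M w s (tau p)).2 hp
    rwa [tau_tau] at this
  obtain ⟨G, hG, g1, g2, g3⟩ := h (tr s) (tr s') (fun v => hs _) (fun v => hs' _) (fun v => hss _)
    (fun i => hr i) _ hF
  refine ⟨fun p => G (tau p), dc_tau (fun p hp => (om_tr inc M w s' p).1 hp) hG, ?_, ?_, ?_⟩
  · rw [en_tau hG.1]
    rw [en_tau hf.1] at g1
    exact g1
  · rw [ms_tau]
    rw [ms_tau] at g2
    exact g2
  · intro v
    have h3 := g3 v.swap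
    rw [l_tr, l_tr, ms_tau] at h3
    have : (fun p => f (tau (tau p))) = f := by
      funext p
      rw [tau_tau]
    rw [this] at h3
    exact h3

/-- Continuity in the lengths. -/
theorem taskCONT : TaskCONT := by
  intro m n inc M w hM _ _ hw hw' ε hε
  set ε1 := min 1 (ε / 3) with hε1
  have hε0 : 0 < ε1 := by positivity
  have hε2 : ε1 ≤ 1 := min_le_left _ _
  have hε3 : 3 * ε1 ≤ ε := by
    have : ε1 ≤ ε / 3 := min_le_right _ _
    linarith
  obtain ⟨δ1, hδ1, hA⟩ := stepA m n inc M w hM hw hw' ε1 hε0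
  obtain ⟨δ2, hδ2, hB⟩ := stepB m n inc M w hM hw hw' ε1 hε0
  refine ⟨min δ1 δ2, by positivity, fun s s' hs hs' hss f hf => ?_⟩
  set s'' : Idx m n → ℝ := Sum.elim (fun i => s' (Sum.inl i)) (fun j => s (Sum.inr j)) with hs''
  have k1 : ∀ v, |s'' v - 1 / 2| ≤ 1 / 4 := by
    rintro (i | j)
    · exact hs' _
    · exact hs _
  have k2 : ∀ v, |s v - s'' v| ≤ δ1 := by
    rintro (i | j)
    · exact (hss _).trans (min_le_left _ _)
    · change |s (Sum.inr j) - s (Sum.inr j)| ≤ δ1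
      rw [sub_self, abs_zero]
      exact hδ1.le
  have k3 : ∀ v, |s'' v - s' v| ≤ δ2 := by
    rintro (i | j)
    · change |s' (Sum.inl i) - s' (Sum.inl i)| ≤ δ2
      rw [sub_self, abs_zero]
      exact hδ2.le
    · exact (hss _).trans (min_le_right _ _)
  obtain ⟨g, hg, a1, a2, a3⟩ := hA s s'' hs k1 k2 (fun j => rfl) f hf
  obtain ⟨h, hh, b1, b2, b3⟩ := hB s'' s' k1 hs' k3 (fun i => rfl) g hg
  have comb : ∀ x y z : ℝ, 0 ≤ x → |y - x| ≤ ε1 * x → |z - y| ≤ ε1 * y → |z - x| ≤ ε * x := by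
    intro x y z hx h1 h2
    have e1 := abs_sub_le z y x
    have e2 := (abs_le.1 h1).2
    have e3 : y ≤ 2 * x := by nlinarith
    have e4 : ε1 * y ≤ ε1 * (2 * x) := mul_le_mul_of_nonneg_left e3 hε0.le
    have e5 : 3 * ε1 * x ≤ ε * x := mul_le_mul_of_nonneg_right hε3 hx
    linarith
  refine ⟨h, hh, comb _ _ _ (en_nonneg f) a1 b1, comb _ _ _ (ms_nonneg f) a2 b2, fun v => ?_⟩
  have e1 := abs_sub_le ((bar m n M s' v).l h) ((bar m n M s'' v).l g) ((bar m n M s v).l f)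
  have e2 := a3 v
  have e3 := b3 v
  have e4 : √(Ms g) ≤ 2 * √(Ms f) := by
    have := (abs_le.1 a2).2
    have h0 := ms_nonneg f
    have h1 : Ms g ≤ 2 ^ 2 * Ms f := by nlinarith
    calc √(Ms g) ≤ √(2 ^ 2 * Ms f) := Real.sqrt_le_sqrt h1
      _ = 2 * √(Ms f) := by
        rw [Real.sqrt_mul (by positivity), Real.sqrt_sq (by norm_num)]
  have e5 : ε1 * √(Ms g) ≤ ε1 * (2 * √(Ms f)) := mul_le_mul_of_nonneg_left e4 hε0.le
  have e6 : 3 * ε1 * √(Ms f) ≤ ε * √(Ms f) :=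
    mul_le_mul_of_nonneg_right hε3 (Real.sqrt_nonneg _)
  linarith

end Pool.Agent.H791R3.Mult
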