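import Pool.Agent.H456R3.Mult.Stmts

/-!
# One-dimensional part: moving the ends of the bars
-/

open MeasureTheory Set
open scoped ContDiff

set_option autoImplicit false

namespace Pool.Agent.H791R3.Mult

open Pool.Agent.H456R3.Mult

/-- A smooth function which is `1` for `x ≤ -3/16` and `0` for `x ≥ -1/16`. -/
noncomputable def eta (x : ℝ) : ℝ := Real.smoothTransition (-8 * x - 1 / 2)

theorem eta_smooth : ContDiff ℝ ∞ eta := by
  unfold eta
  exact Real.smoothTransition.contDiff.comp ((contDiff_const.mul contDiff_id).sub contDiff_const)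

theorem eta_zero {x : ℝ} (h : -1 / 16 ≤ x) : eta x = 0 :=
  Real.smoothTransition.zero_of_nonpos (by linarith)

theorem eta_one {x : ℝ} (h : x ≤ -3 / 16) : eta x = 1 :=
  Real.smoothTransition.one_of_one_le (by linarith)

theorem eta_nonneg (x : ℝ) : 0 ≤ eta x := Real.smoothTransition.nonneg _

theorem eta_le_one (x : ℝ) : eta x ≤ 1 := Real.smoothTransition.le_one _

theorem eta_hasDerivAt (x : ℝ) : HasDerivAt eta (deriv eta x) x :=
  (eta_smooth.differentiable (by simp) x).hasDerivAt

theorem deriv_eta_continuous : Continuous (deriv eta) :=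
  eta_smooth.continuous_deriv (by simp)

theorem deriv_eta_bound : ∃ L : ℝ, 0 < L ∧ ∀ x, |deriv eta x| ≤ L := by
  obtain ⟨L, hL⟩ := (isCompact_Icc (a := (-1 : ℝ)) (b := 0)).exists_bound_of_continuousOn
    deriv_eta_continuous.continuousOn
  refine ⟨|L| + 1, by positivity, fun x => ?_⟩
  by_cases hx : x ∈ Icc (-1 : ℝ) 0
  · have := hL x hx
    rw [Real.norm_eq_abs] at this
    have := le_abs_self L
    linarith
  · have hz : deriv eta x = 0 := by
      rw [mem_Icc, not_and_or, not_le, not_le] at hx
      rcases hx with hx | hx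
      · have : eta =ᶠ[nhds x] fun _ => 1 := by
          filter_upwards [Iio_mem_nhds hx] with y hy
          exact eta_one (by rw [mem_Iio] at hy; linarith)
        rw [this.deriv_eq]
        simp
      · have : eta =ᶠ[nhds x] fun _ => 0 := by
          filter_upwards [Ioi_mem_nhds hx] with y hy
          exact eta_zero (by rw [mem_Ioi] at hy; linarith)
        rw [this.deriv_eq]
        simp
    rw [hz, abs_zero]
    positivity

/-- The map of the line. -/
noncomputable def phi (t x : ℝ) : ℝ := x + t * eta x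

theorem phi_hasDerivAt (t x : ℝ) : HasDerivAt (phi t) (1 + t * deriv eta x) x := by
  unfold phi
  exact (hasDerivAt_id x).add ((eta_hasDerivAt x).const_mul t)

theorem phi_zero {t x : ℝ} (h : -1 / 16 ≤ x) : phi t x = x := by
  unfold phi
  rw [eta_zero h]
  ring

theorem phi_one {t x : ℝ} (h : x ≤ -3 / 16) : phi t x = x + t := by
  unfold phi
  rw [eta_one h]
  ring

theorem phi_continuous (t : ℝ) : Continuous (phi t) := by
  unfold phi
  exact continuous_id.add (continuous_const.mul eta_smooth.continuous)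

theorem J_pos {L t : ℝ} (hL : ∀ x, |deriv eta x| ≤ L) (ht : |t| * L ≤ 1 / 2) (x : ℝ) :
    |t * deriv eta x| ≤ 1 / 2 := by
  rw [abs_mul]
  exact (mul_le_mul_of_nonneg_left (hL x) (abs_nonneg t)).trans ht

theorem phi_strictMono {L t : ℝ} (hL : ∀ x, |deriv eta x| ≤ L) (ht : |t| * L ≤ 1 / 2) :
    StrictMono (phi t) := by
  refine strictMono_of_deriv_pos fun x => ?_
  rw [(phi_hasDerivAt t x).deriv]
  have := J_pos hL ht x
  have := (abs_le.1 this).1
  linarith

theorem phi_surjective (t : ℝ) : Function.Surjective (phi t) := by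
  intro c
  have h1 : ∃ a, phi t a ≤ c := by
    refine ⟨c - |t|, ?_⟩
    unfold phi
    have h2 : t * eta (c - |t|) ≤ |t| := by
      calc t * eta (c - |t|) ≤ |t| * eta (c - |t|) :=
            mul_le_mul_of_nonneg_right (le_abs_self t) (eta_nonneg _)
        _ ≤ |t| * 1 := mul_le_mul_of_nonneg_left (eta_le_one _) (abs_nonneg t)
        _ = |t| := mul_one _
    linarith
  have h2 : ∃ a, c ≤ phi t a := by
    refine ⟨c + |t|, ?_⟩
    unfold phi
    have h2 : -|t| ≤ t * eta (c + |t|) := by
      have h3 : (-|t|) * 1 ≤ (-|t|) * eta (c + |t|) :=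
        mul_le_mul_of_nonpos_left (eta_le_one _) (by have := abs_nonneg t; linarith)
      have h4 : (-|t|) * eta (c + |t|) ≤ t * eta (c + |t|) :=
        mul_le_mul_of_nonneg_right (neg_abs_le t) (eta_nonneg _)
      linarith
    linarith
  exact mem_range_of_exists_le_of_exists_ge (phi_continuous t) h1 h2

theorem cov1 {L t : ℝ} (hL : ∀ x, |deriv eta x| ≤ L) (ht : |t| * L ≤ 1 / 2) (F : ℝ → ℝ) :
    ∫ x, (1 + t * deriv eta x) * F (phi t x) = ∫ x, F x := by
  have h := integral_image_eq_integral_abs_deriv_smul (s := univ) (f := phi t)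
    (f' := fun x => 1 + t * deriv eta x) MeasurableSet.univ
    (fun x _ => (phi_hasDerivAt t x).hasDerivWithinAt) (phi_strictMono hL ht).injective.injOn F
  rw [image_univ, (phi_surjective t).range_eq, Measure.restrict_univ] at h
  rw [h]
  refine integral_congr_ae (Filter.Eventually.of_forall fun x => ?_)
  simp only [smul_eq_mul]
  have := (abs_le.1 (J_pos hL ht x)).1
  rw [abs_of_pos (by linarith)]

/-! ## The map of the space -/

/-- The map of the space. -/
noncomputable def Phi (a : ℝ → ℝ) (p : P) : P := (phi (a p.2.1) p.1, p.2)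

/-- Its Jacobian. -/
noncomputable def J (a : ℝ → ℝ) (p : P) : ℝ := 1 + a p.2.1 * deriv eta p.1

theorem cov3 {L : ℝ} (hL : ∀ x, |deriv eta x| ≤ L) {a : ℝ → ℝ} (ha : ∀ y, |a y| * L ≤ 1 / 2)
    (F : P → ℝ) (hF : Integrable F) (hF' : Integrable fun p => J a p * F (Phi a p)) :
    ∫ p, J a p * F (Phi a p) = ∫ p, F p := by
  rw [Measure.volume_eq_prod] at hF hF' ⊢
  rw [integral_prod_symm _ hF, integral_prod_symm _ hF']
  refine integral_congr_ae (Filter.Eventually.of_forall fun q => ?_)
  exact cov1 hL (ha q.1) fun x => F (x, q)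

theorem Phi_smooth {a : ℝ → ℝ} (ha : ContDiff ℝ ∞ a) : ContDiff ℝ ∞ (Phi a) := by
  unfold Phi phi
  exact (contDiff_fst.add ((ha.comp (contDiff_fst.comp contDiff_snd)).mul
    (eta_smooth.comp contDiff_fst))).prodMk contDiff_snd

theorem J_continuous {a : ℝ → ℝ} (ha : Continuous a) : Continuous (J a) := by
  unfold J
  exact continuous_const.add ((ha.comp (continuous_fst.comp continuous_snd)).mul
    (deriv_eta_continuous.comp continuous_fst))

theorem Phi_proper {a : ℝ → ℝ} (ha : Continuous a) {A : ℝ} (hA : ∀ y, |a y| ≤ A)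
    {K : Set P} (hK : IsCompact K) : IsCompact (Phi a ⁻¹' K) := by
  have hc : Continuous (Phi a) := by
    unfold Phi phi
    exact (continuous_fst.add ((ha.comp (continuous_fst.comp continuous_snd)).mul
      (eta_smooth.continuous.comp continuous_fst))).prodMk continuous_snd
  have hd : ∀ p : P, dist p (Phi a p) ≤ A := by
    intro p
    have hA0 : 0 ≤ A := (abs_nonneg _).trans (hA 0)
    rw [Prod.dist_eq]
    refine max_le ?_ ?_
    · rw [Real.dist_eq]
      unfold Phi phi
      simp only
      have e : p.1 - (p.1 + a p.2.1 * eta p.1) = -(a p.2.1 * eta p.1) := by ring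
      rw [e, abs_neg, abs_mul, abs_of_nonneg (eta_nonneg _)]
      calc |a p.2.1| * eta p.1 ≤ |a p.2.1| * 1 :=
            mul_le_mul_of_nonneg_left (eta_le_one _) (abs_nonneg _)
        _ ≤ A := by rw [mul_one]; exact hA _
    · unfold Phi
      simp only [dist_self]
      exact hA0
  refine Metric.isCompact_of_isClosed_isBounded (hK.isClosed.preimage hc) ?_
  obtain ⟨R, hR⟩ := hK.isBounded.subset_closedBall (0 : P)
  refine (Metric.isBounded_closedBall (x := (0 : P)) (r := R + A)).subset fun p hp => ?_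
  have h1 := hR hp
  rw [Metric.mem_closedBall] at h1 ⊢
  have := dist_triangle p (Phi a p) 0
  have := hd p
  linarith

theorem comp_mem {a : ℝ → ℝ} (ha : ContDiff ℝ ∞ a) {A : ℝ} (hA : ∀ y, |a y| ≤ A)
    {Ω Ω' : Set P} (hΩ : Phi a ⁻¹' Ω ⊆ Ω') {f : P → ℝ} (hf : f ∈ Dc Ω) :
    (fun p => f (Phi a p)) ∈ Dc Ω' := by
  obtain ⟨h1, h2, h3⟩ := hf
  have hc : Continuous (Phi a) := (Phi_smooth ha).continuous
  have h4 : tsupport (fun p => f (Phi a p)) ⊆ Phi a ⁻¹' tsupport f :=
    tsupport_comp_subset_preimage f hc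
  refine ⟨h1.comp (Phi_smooth ha), ?_, ?_⟩
  · exact (Phi_proper ha.continuous hA h2).of_isClosed_subset (isClosed_tsupport _) h4
  · exact h4.trans ((preimage_mono h3).trans hΩ)

end Pool.Agent.H791R3.Mult
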