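import Pool.Agent.H791R3.Mult.Two
import Mathlib.Analysis.Calculus.BumpFunction.InnerProduct

/-!
# The move of the lower bars
-/

open MeasureTheory Set
open scoped ContDiff

set_option autoImplicit false

namespace Pool.Agent.H791R3.Mult

open Pool.Agent.H456R3.Mult

theorem sin_lip (x y : ℝ) : |Real.sin x - Real.sin y| ≤ |x - y| := by
  have h := Real.lipschitzWith_sin.dist_le_mul x y
  rw [Real.dist_eq, Real.dist_eq] at h
  simpa using h

theorem ef_est {M s s' x e j : ℝ} (hM : 1 ≤ M) (hs : |s - 1 / 2| ≤ 1 / 4)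
    (hs' : |s' - 1 / 2| ≤ 1 / 4) (hx1 : -s' < x) (hx2 : x < M) (he0 : 0 ≤ e) (he1 : e ≤ 1) :
    |√(8 / (M + s')) * Real.sin (Real.pi * (x + s') / (M + s')) -
      √(8 / (M + s)) * Real.sin (Real.pi * (x + (s' - s) * e + s) / (M + s)) * (1 + j)| ≤
      64 * |s' - s| + 3 * |j| := by
  have hs1 := abs_le.1 hs
  have hs2 := abs_le.1 hs'
  set b := M + s with hb
  set b' := M + s' with hb'
  have hb1 : 5 / 4 ≤ b := by rw [hb]; linarith [hs1.1]
  have hb2 : 5 / 4 ≤ b' := by rw [hb']; linarith [hs2.1]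
  have hb0 : 0 < b := by linarith
  have hb0' : 0 < b' := by linarith
  set d := s' - s with hd
  have hbd : b' - b = d := by rw [hb, hb', hd]; ring
  set R := √(8 / b') with hR
  set Q := √(8 / b) with hQ
  have hR0 : 0 ≤ R := Real.sqrt_nonneg _
  have hQ0 : 0 ≤ Q := Real.sqrt_nonneg _
  have hR2 : R * R = 8 / b' := Real.mul_self_sqrt (by positivity)
  have hQ2 : Q * Q = 8 / b := Real.mul_self_sqrt (by positivity)
  have hQb : 2 ≤ Q * b := by
    have h1 : (Q * b) * (Q * b) = 8 * b := by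
      calc (Q * b) * (Q * b) = (Q * Q) * (b * b) := by ring
        _ = 8 / b * (b * b) := by rw [hQ2]
        _ = 8 * b := by field_simp
    have h2 : 0 ≤ Q * b := by positivity
    nlinarith
  have hQ3 : Q ≤ 3 := by
    have h1 : Q * Q ≤ 8 := by
      rw [hQ2, div_le_iff₀ hb0]
      linarith
    nlinarith
  have h1 : |R - Q| ≤ 4 * |d| := by
    have e1 : (R - Q) * ((R + Q) * (b * b')) = 8 * (b - b') := by
      calc (R - Q) * ((R + Q) * (b * b')) = (R * R - Q * Q) * (b * b') := by ring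
        _ = (8 / b' - 8 / b) * (b * b') := by rw [hR2, hQ2]
        _ = 8 * (b - b') := by field_simp
    have e2 : |R - Q| * ((R + Q) * (b * b')) = 8 * |d| := by
      have : |(R - Q) * ((R + Q) * (b * b'))| = |8 * (b - b')| := by rw [e1]
      rw [abs_mul (R - Q) _, abs_mul (8 : ℝ) _,
        abs_of_nonneg (by positivity : 0 ≤ (R + Q) * (b * b')), abs_sub_comm b b', hbd] at this
      rw [this]
      norm_num
    have e3 : 2 ≤ (R + Q) * (b * b') := by
      have : Q * b * 1 ≤ (R + Q) * b * b' :=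
        mul_le_mul (mul_le_mul_of_nonneg_right (by linarith) hb0.le) (by linarith) zero_le_one
          (by positivity)
      linarith
    nlinarith [abs_nonneg (R - Q)]
  set u' := Real.pi * (x + s') / b' with hu'
  set u := Real.pi * (x + d * e + s) / b with hu
  have h2 : |u' - u| ≤ 12 * |d| := by
    have e1 : u' - u = Real.pi * (d * (b * (1 - e) - (x + s) - d * e)) / (b * b') := by
      rw [hu', hu]
      have : s' = s + d := by rw [hd]; ring
      rw [this]
      have : b' = b + d := by rw [← hbd]; ring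
      rw [this] at hb0' ⊢
      field_simp
      ring
    have e2 : |b * (1 - e) - (x + s) - d * e| ≤ 3 * b := by
      have f1 : |d| ≤ 1 / 2 := by
        rw [abs_le, hd]
        constructor <;> linarith [hs1.1, hs1.2, hs2.1, hs2.2]
      have f2 : |d * e| ≤ 1 / 2 := by
        rw [abs_mul, abs_of_nonneg he0]
        calc |d| * e ≤ |d| * 1 := mul_le_mul_of_nonneg_left he1 (abs_nonneg _)
          _ ≤ 1 / 2 := by linarith
      have f3 := abs_le.1 f2
      have f4 : 0 ≤ b * (1 - e) := by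
        have : 0 ≤ 1 - e := by linarith
        positivity
      have f5 : b * (1 - e) ≤ b := by nlinarith
      rw [abs_le]
      constructor <;> linarith [f3.1, f3.2, hs1.1, hs1.2, hs2.1, hs2.2]
    rw [e1, abs_div, abs_mul, abs_mul, abs_of_pos Real.pi_pos, abs_of_pos (by positivity : 0 < b * b'),
      div_le_iff₀ (by positivity)]
    have e3 := Real.pi_lt_four
    have e4 : Real.pi * (|d| * |b * (1 - e) - (x + s) - d * e|) ≤ 4 * (|d| * (3 * b)) :=
      mul_le_mul e3.le (mul_le_mul_of_nonneg_left e2 (abs_nonneg _)) (by positivity) (by norm_num)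
    have e5 : 4 * (|d| * (3 * b)) ≤ 12 * |d| * (b * b') := by
      have : 12 * |d| * b * 1 ≤ 12 * |d| * b * b' :=
        mul_le_mul_of_nonneg_left (by linarith) (by positivity)
      linarith
    exact e4.trans e5
  have h3 := (sin_lip u' u).trans h2
  have e0 : R * Real.sin u' - Q * Real.sin u * (1 + j) =
      (R - Q) * Real.sin u' + Q * (Real.sin u' - Real.sin u) - Q * Real.sin u * j := by ring
  rw [e0]
  have t1 : |(R - Q) * Real.sin u'| ≤ 4 * |d| := by
    rw [abs_mul]
    calc |R - Q| * |Real.sin u'| ≤ |R - Q| * 1 :=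
          mul_le_mul_of_nonneg_left (Real.abs_sin_le_one _) (abs_nonneg _)
      _ ≤ 4 * |d| := by rw [mul_one]; exact h1
  have t2 : |Q * (Real.sin u' - Real.sin u)| ≤ 36 * |d| := by
    rw [abs_mul, abs_of_nonneg hQ0]
    calc Q * |Real.sin u' - Real.sin u| ≤ 3 * (12 * |d|) := mul_le_mul hQ3 h3 (abs_nonneg _) (by norm_num)
      _ = 36 * |d| := by ring
  have t3 : |Q * Real.sin u * j| ≤ 3 * |j| := by
    rw [abs_mul, abs_mul, abs_of_nonneg hQ0]
    refine mul_le_mul_of_nonneg_right ?_ (abs_nonneg _)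
    calc Q * |Real.sin u| ≤ 3 * 1 := mul_le_mul hQ3 (Real.abs_sin_le_one _) (abs_nonneg _) (by norm_num)
      _ = 3 := by norm_num
  have := abs_sub (( R - Q) * Real.sin u' + Q * (Real.sin u' - Real.sin u)) (Q * Real.sin u * j)
  have := abs_add_le ((R - Q) * Real.sin u') (Q * (Real.sin u' - Real.sin u))
  have := abs_nonneg d
  linarith

/-! ## The shift function -/

/-- A bump function of the `i`-th lower bar. -/
noncomputable def bmp (i : ℕ) : ContDiffBump (2 * (i : ℝ) + 1 / 2) := ⟨1 / 2, 3 / 4, by norm_num, by norm_num⟩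

/-- The shift function. -/
noncomputable def sh (m : ℕ) (d : Fin m → ℝ) (y : ℝ) : ℝ := ∑ i : Fin m, d i * bmp (i : ℕ) y

theorem sh_smooth (m : ℕ) (d : Fin m → ℝ) : ContDiff ℝ ∞ (sh m d) := by
  unfold sh
  exact ContDiff.sum fun i _ => contDiff_const.mul (bmp (i : ℕ)).contDiff

theorem sh_le (m : ℕ) (d : Fin m → ℝ) {δ : ℝ} (hd : ∀ i, |d i| ≤ δ) (y : ℝ) :
    |sh m d y| ≤ m * δ := by
  unfold sh
  refine (Finset.abs_sum_le_sum_abs _ _).trans ?_
  have : ∀ i ∈ Finset.univ, |d i * bmp ((i : Fin m) : ℕ) y| ≤ δ := by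
    intro i _
    rw [abs_mul, abs_of_nonneg (bmp (i : ℕ)).nonneg]
    calc |d i| * bmp (i : ℕ) y ≤ |d i| * 1 :=
          mul_le_mul_of_nonneg_left (bmp (i : ℕ)).le_one (abs_nonneg _)
      _ ≤ δ := by rw [mul_one]; exact hd i
  refine (Finset.sum_le_sum this).trans (le_of_eq ?_)
  simp

theorem sh_eq (m : ℕ) (d : Fin m → ℝ) (i : Fin m) {y : ℝ} (h1 : 2 * ((i : ℕ) : ℝ) ≤ y)
    (h2 : y ≤ 2 * ((i : ℕ) : ℝ) + 1) : sh m d y = d i := by
  unfold sh
  rw [Finset.sum_eq_single i]
  · have : bmp (i : ℕ) y = 1 := by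
      refine (bmp (i : ℕ)).one_of_mem_closedBall ?_
      rw [Metric.mem_closedBall, Real.dist_eq]
      change _ ≤ (1 / 2 : ℝ)
      rw [abs_le]
      constructor <;> linarith
    rw [this, mul_one]
  · intro k _ hk
    have : bmp (k : ℕ) y = 0 := by
      refine (bmp (k : ℕ)).zero_of_le_dist ?_
      change (3 / 4 : ℝ) ≤ _
      rw [Real.dist_eq]
      have hne : (k : ℕ) ≠ (i : ℕ) := fun h => hk (Fin.ext h)
      rcases lt_or_gt_of_ne hne with h | h
      · have : ((k : ℕ) : ℝ) + 1 ≤ ((i : ℕ) : ℝ) := by exact_mod_cast h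
        rw [abs_of_nonneg (by linarith)]
        linarith
      · have : ((i : ℕ) : ℝ) + 1 ≤ ((k : ℕ) : ℝ) := by exact_mod_cast h
        rw [abs_of_nonpos (by linarith)]
        linarith
    rw [this, mul_zero]
  · intro h
    exact absurd (Finset.mem_univ _) h

theorem deriv_sh (m : ℕ) (d : Fin m → ℝ) (i : Fin m) {y : ℝ} (h1 : 2 * ((i : ℕ) : ℝ) < y)
    (h2 : y < 2 * ((i : ℕ) : ℝ) + 1) : deriv (sh m d) y = 0 := by
  have : sh m d =ᶠ[nhds y] fun _ => d i := by
    filter_upwards [Ioo_mem_nhds h1 h2] with z hz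
    exact sh_eq m d i hz.1.le hz.2.le
  rw [this.deriv_eq]
  simp

theorem phi_Ioo {L t : ℝ} (hL : ∀ x, |deriv eta x| ≤ L) (ht : |t| * L ≤ 1 / 2) {u u' v v' x : ℝ}
    (hu : phi t u' = u) (hv : phi t v' = v) : phi t x ∈ Ioo u v ↔ x ∈ Ioo u' v' := by
  have hm := phi_strictMono hL ht
  rw [mem_Ioo, mem_Ioo, ← hu, ← hv, hm.lt_iff_lt, hm.lt_iff_lt]

theorem deriv_eta_zero {x : ℝ} (h : 0 < x) : deriv eta x = 0 := by
  have : eta =ᶠ[nhds x] fun _ => 0 := by
    filter_upwards [Ioi_mem_nhds h] with y hy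
    exact eta_zero (by rw [mem_Ioi] at hy; linarith)
  rw [this.deriv_eq]
  simp

theorem moveA {m n : ℕ} {inc : Fin m → Fin n → Prop} {M w : ℝ} (hM : 1 ≤ M) (hw : 0 < w)
    (hw' : w ≤ 1 / 8) {L : ℝ} (hL0 : 0 < L) (hL : ∀ x, |deriv eta x| ≤ L) {δ : ℝ} (hδ : 0 ≤ δ)
    (hκ : (64 + 4 * m * L) * δ ≤ 1 / 2) (s s' : Idx m n → ℝ) (hs : ∀ v, |s v - 1 / 2| ≤ 1 / 4)
    (hs' : ∀ v, |s' v - 1 / 2| ≤ 1 / 4) (hss : ∀ v, |s v - s' v| ≤ δ)
    (hr : ∀ j, s (Sum.inr j) = s' (Sum.inr j)) :
    Move m n inc M w s s' (sh m fun i => s' (Sum.inl i) - s (Sum.inl i))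
      ((64 + 4 * m * L) * δ) := by
  set d : Fin m → ℝ := fun i => s' (Sum.inl i) - s (Sum.inl i) with hd
  have hd1 : ∀ i, |d i| ≤ δ := fun i => by
    rw [hd]
    simp only
    rw [abs_sub_comm]
    exact hss _
  have ha := sh_le m d hd1
  have hm0 : (0 : ℝ) ≤ m := Nat.cast_nonneg m
  have hmd : 0 ≤ (m : ℝ) * δ * L := by positivity
  have hk : ∀ y, |sh m d y| * L ≤ m * δ * L := fun y => mul_le_mul_of_nonneg_right (ha y) hL0.le
  have hk2 : ∀ y, |sh m d y| * L ≤ 1 / 2 := fun y => (hk y).trans (by nlinarith)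
  have hphi0 : ∀ t u : ℝ, 0 ≤ u → phi t u = u := fun t u hu => phi_zero (by linarith)
  have hbars : ∀ v p, Phi (sh m d) p ∈ (bar m n M s v).set ↔ p ∈ (bar m n M s' v).set := by
    intro v p
    rcases v with i | j
    · unfold Phi bar Box.set
      simp only [mem_prod]
      constructor
      · rintro ⟨h1, h2⟩
        refine ⟨?_, h2⟩
        have ht : sh m d p.2.1 = d i := sh_eq m d i h2.1.1.le h2.1.2.le
        rw [phi_Ioo hL (hk2 _) (u' := -s' (Sum.inl i)) (v' := M)] at h1
        · exact h1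
        · rw [ht, phi_one, hd]
          · simp only
            ring
          · have := (abs_le.1 (hs' (Sum.inl i))).1
            linarith
        · exact hphi0 _ _ (by linarith)
      · rintro ⟨h1, h2⟩
        refine ⟨?_, h2⟩
        have ht : sh m d p.2.1 = d i := sh_eq m d i h2.1.1.le h2.1.2.le
        rw [phi_Ioo hL (hk2 _) (u' := -s' (Sum.inl i)) (v' := M)]
        · exact h1
        · rw [ht, phi_one, hd]
          · simp only
            ring
          · have := (abs_le.1 (hs' (Sum.inl i))).1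
            linarith
        · exact hphi0 _ _ (by linarith)
    · unfold Phi bar Box.set
      simp only [mem_prod]
      rw [hr j, phi_Ioo hL (hk2 _) (u' := 2 * ((j : ℕ) : ℝ)) (v' := 2 * ((j : ℕ) : ℝ) + 1)]
      · exact hphi0 _ _ (by positivity)
      · exact hphi0 _ _ (by positivity)
  have hx0 : ∀ p : P, phi (sh m d p.2.1) p.1 > 0 → p.1 > 0 := by
    intro p hp
    have hmn := phi_strictMono hL (hk2 p.2.1)
    have h0 := hphi0 (sh m d p.2.1) 0 le_rfl
    rw [gt_iff_lt, ← h0] at hp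
    exact hmn.lt_iff_lt.1 hp
  have hcube : ∀ (i : Fin m) (j : Fin n) p, Phi (sh m d) p ∈ cube (ctr i j) w →
      0 < p.1 ∧ Phi (sh m d) p = p := by
    intro i j p hp
    unfold cube at hp
    have h1 := hp.1.1
    unfold ctr Phi at h1
    simp only at h1
    have hj : (0 : ℝ) ≤ ((j : ℕ) : ℝ) := Nat.cast_nonneg _
    have h2 := hx0 p (by linarith)
    refine ⟨h2, ?_⟩
    unfold Phi
    rw [hphi0 _ _ h2.le]
  refine
    { smooth := sh_smooth m d
      bdd := ⟨_, ha⟩
      cov := fun F hF hF' => cov3 hL hk2 F hF hF'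
      κ0 := by positivity
      κ1 := hκ
      Jb := ?_
      om := ?_
      flat := ?_
      bars := hbars
      vol := ?_
      ef := ?_ }
  · intro p
    unfold J
    rw [add_sub_cancel_left, abs_mul]
    calc |sh m d p.2.1| * |deriv eta p.1| ≤ |sh m d p.2.1| * L :=
          mul_le_mul_of_nonneg_left (hL _) (abs_nonneg _)
      _ ≤ m * δ * L := hk _
      _ ≤ _ := by nlinarith
  · intro p hp
    rw [mem_preimage] at hp
    rcases hp with hp | hp
    · left
      obtain ⟨v, hv⟩ := mem_iUnion.1 hp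
      exact mem_iUnion.2 ⟨v, (hbars v p).1 hv⟩
    · right
      simp only [mem_iUnion] at hp ⊢
      obtain ⟨i, j, hij, hp⟩ := hp
      have := (hcube i j p hp).2
      rw [this] at hp
      exact ⟨i, j, hij, hp⟩
  · intro p hp
    by_cases he : eta p.1 = 0
    · rw [he, mul_zero]
    · have hx : p.1 < 0 := by
        by_contra h
        exact he (eta_zero (by linarith))
      rcases hp with hp | hp
      · obtain ⟨v, hv⟩ := mem_iUnion.1 hp
        rcases v with i | j
        · rw [hbars] at hv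
          have h2 := hv.2.1
          rw [deriv_sh m d i h2.1 h2.2, zero_mul]
        · exfalso
          rw [hbars] at hv
          have h1 : 2 * ((j : ℕ) : ℝ) < p.1 := hv.1.1
          have hj : (0 : ℝ) ≤ ((j : ℕ) : ℝ) := Nat.cast_nonneg _
          linarith
      · exfalso
        simp only [mem_iUnion] at hp
        obtain ⟨i, j, hij, hp⟩ := hp
        have := (hcube i j p hp).1
        linarith
  · intro v
    have hv := (abs_le.1 (hs' v)).2
    rcases v with i | j
    · unfold bar Box.set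
      simp only
      rw [Measure.volume_eq_prod, Measure.prod_prod, Measure.volume_eq_prod, Measure.prod_prod,
        Real.volume_Ioo, Real.volume_Ioo, Real.volume_Ioo]
      have e1 : 2 * ((i : ℕ) : ℝ) + 1 - 2 * ((i : ℕ) : ℝ) = 1 := by ring
      rw [e1, sub_zero, ENNReal.ofReal_one, mul_one, mul_one]
      exact ENNReal.ofReal_le_ofReal (by linarith)
    · unfold bar Box.set
      simp only
      rw [Measure.volume_eq_prod, Measure.prod_prod, Measure.volume_eq_prod, Measure.prod_prod,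
        Real.volume_Ioo, Real.volume_Ioo, Real.volume_Ioo]
      have e1 : 2 * ((j : ℕ) : ℝ) + 1 - 2 * ((j : ℕ) : ℝ) = 1 := by ring
      have e2 : (2 : ℝ) - 1 = 1 := by norm_num
      rw [e1, e2, ENNReal.ofReal_one, one_mul, mul_one]
      exact ENNReal.ofReal_le_ofReal (by linarith)
  · intro v p hp
    rcases v with i | j
    · have hp1 := hp.1
      have hp2 := hp.2.1
      have ht : sh m d p.2.1 = d i := sh_eq m d i hp2.1.le hp2.2.le
      have h := ef_est (M := M) (s := s (Sum.inl i)) (s' := s' (Sum.inl i)) (x := p.1)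
        (e := eta p.1) (j := d i * deriv eta p.1) hM (hs _) (hs' _) hp1.1 hp1.2 (eta_nonneg _)
        (eta_le_one _)
      have e1 : (bar m n M s' (Sum.inl i)).ef p -
          (bar m n M s (Sum.inl i)).ef (Phi (sh m d) p) * J (sh m d) p =
          (√(8 / (M + s' (Sum.inl i))) *
            Real.sin (Real.pi * (p.1 + s' (Sum.inl i)) / (M + s' (Sum.inl i))) -
          √(8 / (M + s (Sum.inl i))) * Real.sin (Real.pi * (p.1 +
            (s' (Sum.inl i) - s (Sum.inl i)) * eta p.1 + s (Sum.inl i)) / (M + s (Sum.inl i))) *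
            (1 + d i * deriv eta p.1)) *
          (Real.sin (Real.pi * (p.2.1 - 2 * ((i : ℕ) : ℝ)) /
            (2 * ((i : ℕ) : ℝ) + 1 - 2 * ((i : ℕ) : ℝ))) *
            Real.sin (Real.pi * (p.2.2 - 0) / (1 - 0))) := by
        unfold Box.ef bar Phi J phi
        simp only
        rw [ht]
        have e1 : 2 * ((i : ℕ) : ℝ) + 1 - 2 * ((i : ℕ) : ℝ) = 1 := by ring
        rw [e1, sub_zero, sub_neg_eq_add, sub_neg_eq_add, sub_neg_eq_add, sub_neg_eq_add, mul_one,
          mul_one, mul_one, mul_one]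
        ring
      rw [e1, abs_mul]
      have h2 : |Real.sin (Real.pi * (p.2.1 - 2 * ((i : ℕ) : ℝ)) /
            (2 * ((i : ℕ) : ℝ) + 1 - 2 * ((i : ℕ) : ℝ))) *
            Real.sin (Real.pi * (p.2.2 - 0) / (1 - 0))| ≤ 1 := by
        rw [abs_mul]
        exact mul_le_one₀ (Real.abs_sin_le_one _) (abs_nonneg _) (Real.abs_sin_le_one _)
      have h3 : |d i * deriv eta p.1| ≤ m * δ * L := by
        rw [← ht, abs_mul]
        exact (mul_le_mul_of_nonneg_left (hL _) (abs_nonneg _)).trans (hk _)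
      have h4 : |s' (Sum.inl i) - s (Sum.inl i)| ≤ δ := hd1 i
      calc _ ≤ (64 * |s' (Sum.inl i) - s (Sum.inl i)| + 3 * |d i * deriv eta p.1|) * 1 :=
            mul_le_mul h h2 (abs_nonneg _) (by positivity)
        _ ≤ _ := by nlinarith
    · have hp1 : 2 * ((j : ℕ) : ℝ) < p.1 := hp.1.1
      have hj : (0 : ℝ) ≤ ((j : ℕ) : ℝ) := Nat.cast_nonneg _
      have hp0 : 0 < p.1 := by linarith
      have e1 : Phi (sh m d) p = p := by
        unfold Phi
        rw [hphi0 _ _ hp0.le]
      have e2 : J (sh m d) p = 1 := by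
        unfold J
        rw [deriv_eta_zero hp0, mul_zero, add_zero]
      have e3 : bar m n M s (Sum.inr j) = bar m n M s' (Sum.inr j) := by
        unfold bar
        simp only
        rw [hr j]
      rw [e1, e2, e3, mul_one, sub_self, abs_zero]
      positivity

end Pool.Agent.H791R3.Mult
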