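import Pool.Agent.H791R3.Mult.One

/-!
# Comparison of the energies
-/

open MeasureTheory Set
open scoped ContDiff

set_option autoImplicit false

namespace Pool.Agent.H791R3.Mult

open Pool.Agent.H456R3.Mult

/-! ## The gradient -/

theorem fderiv_line {f : P → ℝ} {p v : P} {c : ℝ → P} {c' : P} {Φ : P → P}
    (hf : DifferentiableAt ℝ f (Φ p)) (hg : DifferentiableAt ℝ (fun p => f (Φ p)) p)
    (hc : HasDerivAt c c' 0) (h : ∀ t : ℝ, Φ (p + t • v) = c t) :
    fderiv ℝ (fun p => f (Φ p)) p v = fderiv ℝ f (Φ p) c' := by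
  have e0 : c 0 = Φ p := by
    have := h 0
    rw [zero_smul, add_zero] at this
    exact this.symm
  have h1 : HasDerivAt (fun t : ℝ => p + t • v) v 0 := by
    have := ((hasDerivAt_id (0 : ℝ)).smul_const v).const_add p
    simpa using this
  have h2 : HasDerivAt (fun t : ℝ => f (Φ (p + t • v))) (fderiv ℝ (fun p => f (Φ p)) p v) 0 := by
    have hg' : HasFDerivAt (fun p => f (Φ p)) (fderiv ℝ (fun p => f (Φ p)) p)
        ((fun t : ℝ => p + t • v) 0) := by
      simp only [zero_smul, add_zero]
      exact hg.hasFDerivAt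
    exact HasFDerivAt.comp_hasDerivAt (l := fun p => f (Φ p)) (f := fun t : ℝ => p + t • v)
      (0 : ℝ) hg' h1
  have h3 : HasDerivAt (fun t : ℝ => f (c t)) (fderiv ℝ f (Φ p) c') 0 := by
    have hf' : HasFDerivAt f (fderiv ℝ f (Φ p)) (c 0) := by
      rw [e0]
      exact hf.hasFDerivAt
    exact hf'.comp_hasDerivAt (0 : ℝ) hc
  have e : (fun t : ℝ => f (Φ (p + t • v))) = fun t : ℝ => f (c t) := by
    funext t
    rw [h t]
  rw [e] at h2
  exact h2.unique h3

theorem dc_diff {Ω : Set P} {f : P → ℝ} (hf : f ∈ Dc Ω) : Differentiable ℝ f :=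
  hf.1.differentiable (by simp)

theorem dx_comp {a : ℝ → ℝ} (ha : ContDiff ℝ ∞ a) {f : P → ℝ} (hf : ContDiff ℝ ∞ f) (p : P) :
    dx (fun p => f (Phi a p)) p = J a p * dx f (Phi a p) := by
  have hg : ContDiff ℝ ∞ (fun p => f (Phi a p)) := hf.comp (Phi_smooth ha)
  unfold dx
  rw [fderiv_line (c := fun t => (phi (a p.2.1) (p.1 + t), p.2)) (c' := (J a p, 0))
    (hf.differentiable (by simp) _) (hg.differentiable (by simp) _)]
  · have : ((J a p, (0 : ℝ × ℝ)) : P) = J a p • ((1, 0, 0) : P) := by
      ext <;> simp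
    rw [this, map_smul, smul_eq_mul]
  · refine HasDerivAt.prodMk ?_ (hasDerivAt_const _ _)
    have h := phi_hasDerivAt (a p.2.1) (p.1 + 0)
    have h2 : HasDerivAt (fun t : ℝ => p.1 + t) 1 0 := by
      simpa using (hasDerivAt_id (0 : ℝ)).const_add p.1
    have h3 := h.comp (0 : ℝ) h2
    rw [mul_one, add_zero] at h3
    exact h3
  · intro t
    unfold Phi
    simp

theorem dy_comp {a : ℝ → ℝ} (ha : ContDiff ℝ ∞ a) {f : P → ℝ} (hf : ContDiff ℝ ∞ f) (p : P) :
    dy (fun p => f (Phi a p)) p =
      deriv a p.2.1 * eta p.1 * dx f (Phi a p) + dy f (Phi a p) := by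
  have hg : ContDiff ℝ ∞ (fun p => f (Phi a p)) := hf.comp (Phi_smooth ha)
  unfold dx dy
  rw [fderiv_line (c := fun t => (phi (a (p.2.1 + t)) p.1, p.2.1 + t, p.2.2))
    (c' := (deriv a p.2.1 * eta p.1, 1, 0))
    (hf.differentiable (by simp) _) (hg.differentiable (by simp) _)]
  · have : ((deriv a p.2.1 * eta p.1, 1, 0) : P) =
      (deriv a p.2.1 * eta p.1) • ((1, 0, 0) : P) + (0, 1, 0) := by
      ext <;> simp
    rw [this, map_add, map_smul, smul_eq_mul]
  · have h2 : HasDerivAt (fun t : ℝ => p.2.1 + t) 1 0 := by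
      simpa using (hasDerivAt_id (0 : ℝ)).const_add p.2.1
    refine HasDerivAt.prodMk ?_ (h2.prodMk (hasDerivAt_const _ _))
    unfold phi
    have h1 : HasDerivAt a (deriv a p.2.1) (p.2.1 + 0) := by
      rw [add_zero]
      exact (ha.differentiable (by simp) _).hasDerivAt
    have h3 := h1.comp (0 : ℝ) h2
    rw [mul_one] at h3
    exact (h3.mul_const (eta p.1)).const_add p.1
  · intro t
    unfold Phi
    ext <;> simp

theorem dz_comp {a : ℝ → ℝ} (ha : ContDiff ℝ ∞ a) {f : P → ℝ} (hf : ContDiff ℝ ∞ f) (p : P) :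
    dz (fun p => f (Phi a p)) p = dz f (Phi a p) := by
  have hg : ContDiff ℝ ∞ (fun p => f (Phi a p)) := hf.comp (Phi_smooth ha)
  unfold dz
  rw [fderiv_line (c := fun t => (phi (a p.2.1) p.1, p.2.1, p.2.2 + t)) (c' := (0, 0, 1))
    (hf.differentiable (by simp) _) (hg.differentiable (by simp) _)]
  · have h2 : HasDerivAt (fun t : ℝ => p.2.2 + t) 1 0 := by
      simpa using (hasDerivAt_id (0 : ℝ)).const_add p.2.2
    exact (hasDerivAt_const _ _).prodMk ((hasDerivAt_const _ _).prodMk h2)
  · intro t
    unfold Phi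
    ext <;> simp

/-! ## Integrability -/

theorem dx_continuous {f : P → ℝ} (hf : ContDiff ℝ ∞ f) : Continuous (dx f) :=
  (hf.continuous_fderiv (by simp)).clm_apply continuous_const

theorem dy_continuous {f : P → ℝ} (hf : ContDiff ℝ ∞ f) : Continuous (dy f) :=
  (hf.continuous_fderiv (by simp)).clm_apply continuous_const

theorem dz_continuous {f : P → ℝ} (hf : ContDiff ℝ ∞ f) : Continuous (dz f) :=
  (hf.continuous_fderiv (by simp)).clm_apply continuous_const

theorem gb_continuous {f : P → ℝ} (hf : ContDiff ℝ ∞ f) : Continuous (gb f f) := by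
  unfold gb
  exact (((dx_continuous hf).mul (dx_continuous hf)).add
    ((dy_continuous hf).mul (dy_continuous hf))).add ((dz_continuous hf).mul (dz_continuous hf))

theorem dx_zero {f : P → ℝ} {p : P} (h : p ∉ tsupport f) : dx f p = 0 := by
  unfold dx
  have : fderiv ℝ f p = 0 := by
    by_contra h1
    exact h (support_fderiv_subset ℝ h1)
  rw [this]
  rfl

theorem gb_zero {f : P → ℝ} {p : P} (h : p ∉ tsupport f) : gb f f p = 0 := by
  have : fderiv ℝ f p = 0 := by
    by_contra h1
    exact h (support_fderiv_subset ℝ h1)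
  unfold gb dx dy dz
  rw [this]
  simp

theorem gb_compact {f : P → ℝ} (hf : HasCompactSupport f) : HasCompactSupport (gb f f) :=
  HasCompactSupport.intro hf fun _ hx => gb_zero hx

theorem gb_nonneg (f : P → ℝ) (p : P) : 0 ≤ gb f f p := by
  unfold gb
  have := mul_self_nonneg (dx f p)
  have := mul_self_nonneg (dy f p)
  have := mul_self_nonneg (dz f p)
  linarith

/-! ## Moves -/

/-- Data of a change of variables between two domains. -/
structure Move (m n : ℕ) (inc : Fin m → Fin n → Prop) (M w : ℝ) (s s' : Idx m n → ℝ)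
    (a : ℝ → ℝ) (κ : ℝ) : Prop where
  smooth : ContDiff ℝ ∞ a
  bdd : ∃ A, ∀ y, |a y| ≤ A
  cov : ∀ F : P → ℝ, Integrable F → Integrable (fun p => J a p * F (Phi a p)) →
    ∫ p, J a p * F (Phi a p) = ∫ p, F p
  κ0 : 0 ≤ κ
  κ1 : κ ≤ 1 / 2
  Jb : ∀ p, |J a p - 1| ≤ κ
  om : Phi a ⁻¹' (Om m n inc M w s) ⊆ Om m n inc M w s'
  flat : ∀ p, Phi a p ∈ Om m n inc M w s → deriv a p.2.1 * eta p.1 = 0
  bars : ∀ v p, Phi a p ∈ (bar m n M s v).set ↔ p ∈ (bar m n M s' v).set
  vol : ∀ v, volume (bar m n M s' v).set ≤ ENNReal.ofReal (M + 1)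
  ef : ∀ v, ∀ p ∈ (bar m n M s' v).set,
    |(bar m n M s' v).ef p - (bar m n M s v).ef (Phi a p) * J a p| ≤ κ

section
variable {m n : ℕ} {inc : Fin m → Fin n → Prop} {M w : ℝ} {s s' : Idx m n → ℝ}
  {a : ℝ → ℝ} {κ : ℝ}

theorem Move.cont (h : Move m n inc M w s s' a κ) : Continuous (Phi a) :=
  (Phi_smooth h.smooth).continuous

theorem Move.integrable (h : Move m n inc M w s s' a κ) {F : P → ℝ} (hF : Continuous F)
    (hc : HasCompactSupport F) : Integrable fun p => F (Phi a p) := by
  obtain ⟨A, hA⟩ := h.bdd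
  have h4 : tsupport (fun p => F (Phi a p)) ⊆ Phi a ⁻¹' tsupport F :=
    tsupport_comp_subset_preimage F h.cont
  exact (hF.comp h.cont).integrable_of_hasCompactSupport
    ((Phi_proper h.smooth.continuous hA hc).of_isClosed_subset (isClosed_tsupport _) h4)

/-- The integrals of nonnegative functions change only a little. -/
theorem Move.close (h : Move m n inc M w s s' a κ) {F : P → ℝ} (hF : Continuous F)
    (hc : HasCompactSupport F) (h0 : ∀ p, 0 ≤ F p) :
    |(∫ p, F (Phi a p)) - ∫ p, F p| ≤ 2 * κ * ∫ p, F p ∧ ∫ p, F (Phi a p) ≤ 2 * ∫ p, F p := by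
  have i1 := h.integrable hF hc
  have i2 : Integrable F := hF.integrable_of_hasCompactSupport hc
  have i3 : Integrable fun p => J a p * F (Phi a p) := by
    have hc' : HasCompactSupport fun p => F (Phi a p) := by
      obtain ⟨A, hA⟩ := h.bdd
      exact (Phi_proper h.smooth.continuous hA hc).of_isClosed_subset (isClosed_tsupport _)
        (tsupport_comp_subset_preimage F h.cont)
    exact ((J_continuous h.smooth.continuous).mul (hF.comp h.cont)).integrable_of_hasCompactSupport
      hc'.mul_left
  have e := h.cov F i2 i3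
  have hκ := h.κ0
  have hκ1 := h.κ1
  have I0 : 0 ≤ ∫ p, F p := integral_nonneg h0
  have b : |(∫ p, F (Phi a p)) - ∫ p, F p| ≤ κ * ∫ p, F (Phi a p) := by
    rw [← e, ← integral_sub i1 i3, ← integral_const_mul, ← Real.norm_eq_abs]
    refine (norm_integral_le_integral_norm _).trans (integral_mono_of_nonneg
      (Filter.Eventually.of_forall fun p => norm_nonneg _) (i1.const_mul κ)
      (Filter.Eventually.of_forall fun p => ?_))
    simp only
    have e1 : F (Phi a p) - J a p * F (Phi a p) = -(J a p - 1) * F (Phi a p) := by ring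
    rw [e1, norm_mul, norm_neg, Real.norm_eq_abs, Real.norm_eq_abs, abs_of_nonneg (h0 _)]
    exact mul_le_mul_of_nonneg_right (h.Jb p) (h0 _)
  have b1 := (abs_le.1 b).2
  have c1 : ∫ p, F (Phi a p) ≤ 2 * ∫ p, F p := by nlinarith
  refine ⟨b.trans ?_, c1⟩
  nlinarith

theorem Move.ms (h : Move m n inc M w s s' a κ) {f : P → ℝ} (hf : f ∈ Dc (Om m n inc M w s)) :
    |Ms (fun p => f (Phi a p)) - Ms f| ≤ 2 * κ * Ms f ∧ Ms (fun p => f (Phi a p)) ≤ 2 * Ms f := by
  obtain ⟨h1, h2, h3⟩ := hf
  exact h.close (F := fun p => f p * f p) (h1.continuous.mul h1.continuous) h2.mul_left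
    (fun p => mul_self_nonneg _)

theorem Move.en (h : Move m n inc M w s s' a κ) {f : P → ℝ} (hf : f ∈ Dc (Om m n inc M w s)) :
    |En (fun p => f (Phi a p)) - En f| ≤ 8 * κ * En f := by
  have hf' := hf
  obtain ⟨h1, h2, h3⟩ := hf
  obtain ⟨A, hA⟩ := h.bdd
  have hg := comp_mem h.smooth hA h.om hf'
  obtain ⟨g1, g2, g3⟩ := hg
  have hκ := h.κ0
  have hκ1 := h.κ1
  have c := h.close (gb_continuous h1) (gb_compact h2) (gb_nonneg f)
  have i1 := h.integrable (gb_continuous h1) (gb_compact h2)
  have i2 : Integrable (gb (fun p => f (Phi a p)) (fun p => f (Phi a p))) :=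
    (gb_continuous g1).integrable_of_hasCompactSupport (gb_compact g2)
  have b : |(∫ p, gb (fun p => f (Phi a p)) (fun p => f (Phi a p)) p) - ∫ p, gb f f (Phi a p)| ≤
      3 * κ * ∫ p, gb f f (Phi a p) := by
    rw [← integral_sub i2 i1, ← integral_const_mul, ← Real.norm_eq_abs]
    refine (norm_integral_le_integral_norm _).trans (integral_mono_of_nonneg
      (Filter.Eventually.of_forall fun p => norm_nonneg _) (i1.const_mul _)
      (Filter.Eventually.of_forall fun p => ?_))
    simp only
    have e0 : deriv a p.2.1 * eta p.1 * dx f (Phi a p) = 0 := by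
      by_cases hp : Phi a p ∈ tsupport f
      · rw [h.flat p (h3 hp), zero_mul]
      · rw [dx_zero hp, mul_zero]
    have e1 : gb (fun p => f (Phi a p)) (fun p => f (Phi a p)) p - gb f f (Phi a p) =
        (J a p - 1) * (J a p + 1) * (dx f (Phi a p) * dx f (Phi a p)) := by
      unfold gb
      rw [dx_comp h.smooth h1, dy_comp h.smooth h1, dz_comp h.smooth h1, e0]
      ring
    rw [e1, Real.norm_eq_abs, abs_mul, abs_mul, abs_of_nonneg (mul_self_nonneg (dx f (Phi a p)))]
    have j1 := h.Jb p
    have j2 : |J a p + 1| ≤ 3 := by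
      have := abs_le.1 j1
      rw [abs_le]
      constructor <;> linarith [this.1, this.2]
    have j3 : |J a p - 1| * |J a p + 1| ≤ 3 * κ := by
      calc |J a p - 1| * |J a p + 1| ≤ κ * 3 := mul_le_mul j1 j2 (abs_nonneg _) hκ
        _ = 3 * κ := mul_comm _ _
    have j4 : dx f (Phi a p) * dx f (Phi a p) ≤ gb f f (Phi a p) := by
      unfold gb
      have := mul_self_nonneg (dy f (Phi a p))
      have := mul_self_nonneg (dz f (Phi a p))
      linarith
    exact mul_le_mul j3 j4 (mul_self_nonneg _) (by positivity)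
  have e1 : En (fun p => f (Phi a p)) = ∫ p, gb (fun p => f (Phi a p)) (fun p => f (Phi a p)) p :=
    rfl
  have e2 : En f = ∫ p, gb f f p := rfl
  rw [e1, e2]
  have b1 := abs_le.1 b
  have b2 := abs_le.1 c.1
  have b3 := c.2
  have : 3 * κ * ∫ p, gb f f (Phi a p) ≤ 6 * κ * ∫ p, gb f f p := by
    have : 3 * κ * ∫ p, gb f f (Phi a p) ≤ 3 * κ * (2 * ∫ p, gb f f p) :=
      mul_le_mul_of_nonneg_left b3 (by positivity)
    linarith
  rw [abs_le]
  constructor <;> linarith [b1.1, b1.2, b2.1, b2.2]

theorem ef_continuous (b : Box) : Continuous b.ef := by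
  unfold Box.ef
  fun_prop

theorem box_measurable (b : Box) : MeasurableSet b.set := by
  unfold Box.set
  exact measurableSet_Ioo.prod (measurableSet_Ioo.prod measurableSet_Ioo)

/-- Cauchy-Schwarz inequality. -/
theorem cs_set {B : Set P} {V : ℝ} (hV : 0 ≤ V) (hB : MeasurableSet B)
    (hv : volume B ≤ ENNReal.ofReal V) {g : P → ℝ} (hg : Continuous g) (hc : HasCompactSupport g) :
    ∫ p in B, |g p| ≤ √V * √(Ms g) := by
  have i1 : Integrable g := hg.integrable_of_hasCompactSupport hc
  have i2 : Integrable (fun p => g p * g p) :=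
    (hg.mul hg).integrable_of_hasCompactSupport hc.mul_left
  have hfin : volume B < ⊤ := lt_of_le_of_lt hv ENNReal.ofReal_lt_top
  have hr : (volume.real B) ≤ V := by
    rw [Measure.real]
    exact ENNReal.toReal_le_of_le_ofReal hV hv
  have hMs : 0 ≤ Ms g := integral_nonneg fun p => mul_self_nonneg _
  have key : ∀ t : ℝ, 0 < t → ∫ p in B, |g p| ≤ t / 2 * V + Ms g / (2 * t) := by
    intro t ht
    have h1 : ∫ p in B, |g p| ≤ ∫ p in B, (t / 2 + g p * g p / (2 * t)) := by
      refine setIntegral_mono_on i1.abs.integrableOn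
        (((integrable_const_iff (μ := volume.restrict B)).2 ?_).add
          (i2.div_const _).integrableOn) hB fun p _ => ?_
      · right
        exact ⟨by rw [Measure.restrict_apply_univ]; exact hfin⟩
      · have h2 : 0 ≤ (t - |g p|) ^ 2 / (2 * t) := by positivity
        have h3 : (t - |g p|) ^ 2 / (2 * t) = t / 2 + g p * g p / (2 * t) - |g p| := by
          have : |g p| ^ 2 = g p * g p := by rw [sq_abs, sq]
          field_simp
          nlinarith
        linarith
    have h2 : ∫ p in B, (t / 2 + g p * g p / (2 * t)) =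
        t / 2 * volume.real B + (∫ p in B, g p * g p) / (2 * t) := by
      rw [integral_add, setIntegral_const, smul_eq_mul, integral_div, mul_comm]
      · refine (integrable_const_iff (μ := volume.restrict B)).2 ?_
        right
        exact ⟨by rw [Measure.restrict_apply_univ]; exact hfin⟩
      · exact (i2.div_const _).integrableOn
    have h3 : ∫ p in B, g p * g p ≤ Ms g :=
      setIntegral_le_integral i2 (Filter.Eventually.of_forall fun p => mul_self_nonneg _)
    calc ∫ p in B, |g p| ≤ _ := h1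
      _ = _ := h2
      _ ≤ t / 2 * V + Ms g / (2 * t) := by
        have : (∫ p in B, g p * g p) / (2 * t) ≤ Ms g / (2 * t) :=
          div_le_div_of_nonneg_right h3 (by positivity)
        have : t / 2 * volume.real B ≤ t / 2 * V := mul_le_mul_of_nonneg_left hr (by positivity)
        linarith
  refine le_of_forall_pos_le_add fun η hη => ?_
  -- choose t
  set x := √V with hx
  set y := √(Ms g) with hy
  have hx0 : 0 ≤ x := Real.sqrt_nonneg _
  have hy0 : 0 ≤ y := Real.sqrt_nonneg _
  have ex : V = x * x := (Real.mul_self_sqrt hV).symm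
  have ey : Ms g = y * y := (Real.mul_self_sqrt hMs).symm
  set σ := η / (x + y + 1) with hσ
  have hσ0 : 0 < σ := by positivity
  have h := key ((y + σ) / (x + σ)) (by positivity)
  rw [ex, ey] at h
  have e1 : (y + σ) / (x + σ) / 2 * (x * x) ≤ (y + σ) * x / 2 := by
    rw [div_div, div_mul_eq_mul_div, div_le_div_iff₀ (by positivity) (by positivity)]
    have : 0 ≤ (y + σ) * x * 2 * σ := by positivity
    nlinarith
  have e2 : y * y / (2 * ((y + σ) / (x + σ))) ≤ y * (x + σ) / 2 := by
    rw [mul_div_assoc', div_div_eq_mul_div, div_le_div_iff₀ (by positivity) (by positivity)]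
    have : 0 ≤ y * (x + σ) * 2 * σ := by positivity
    nlinarith
  have e3 : σ * (x + y) ≤ η := by
    rw [hσ, div_mul_eq_mul_div, div_le_iff₀ (by positivity)]
    nlinarith
  nlinarith

theorem Move.lv (h : Move m n inc M w s s' a κ) (hM : 0 ≤ M) {f : P → ℝ}
    (hf : f ∈ Dc (Om m n inc M w s)) (v : Idx m n) :
    |(bar m n M s' v).l (fun p => f (Phi a p)) - (bar m n M s v).l f| ≤
      κ * (√(M + 1) * √(2 * Ms f)) := by
  have hf' := hf
  obtain ⟨h1, h2, h3⟩ := hf
  obtain ⟨A, hA⟩ := h.bdd
  have hg := comp_mem h.smooth hA h.om hf'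
  obtain ⟨g1, g2, g3⟩ := hg
  have hκ := h.κ0
  set b := bar m n M s v with hb
  set b' := bar m n M s' v with hb'
  set g : P → ℝ := fun p => f (Phi a p) with hgd
  have hJ := J_continuous h.smooth.continuous
  have i2 : Integrable fun p => b.ef p * f p :=
    ((ef_continuous b).mul h1.continuous).integrable_of_hasCompactSupport h2.mul_left
  have i3 : Integrable fun p => J a p * (b.ef (Phi a p) * g p) :=
    (hJ.mul (((ef_continuous b).comp h.cont).mul g1.continuous)).integrable_of_hasCompactSupport
      (g2.mul_left (f := fun p => b.ef (Phi a p))).mul_left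
  have i4 : Integrable fun p => b'.ef p * g p :=
    ((ef_continuous b').mul g1.continuous).integrable_of_hasCompactSupport g2.mul_left
  have e : ∫ p in b.set, b.ef p * f p = ∫ p in b'.set, J a p * (b.ef (Phi a p) * g p) := by
    rw [← integral_indicator (box_measurable b), ← integral_indicator (box_measurable b')]
    have e1 : (b'.set).indicator (fun p => J a p * (b.ef (Phi a p) * g p)) =
        fun p => J a p * (b.set).indicator (fun p => b.ef p * f p) (Phi a p) := by
      funext p
      by_cases hp : p ∈ b'.set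
      · rw [indicator_of_mem hp, indicator_of_mem ((h.bars v p).2 hp)]
      · rw [indicator_of_notMem hp, indicator_of_notMem (fun h' => hp ((h.bars v p).1 h')),
          mul_zero]
    rw [e1]
    refine (h.cov _ (i2.indicator (box_measurable b)) ?_).symm
    rw [← e1]
    exact i3.indicator (box_measurable b')
  have e2 : (bar m n M s' v).l g - (bar m n M s v).l f =
      ∫ p in b'.set, (b'.ef p - b.ef (Phi a p) * J a p) * g p := by
    unfold Box.l
    rw [← hb, ← hb', e, ← integral_sub i4.integrableOn i3.integrableOn]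
    refine integral_congr_ae (Filter.Eventually.of_forall fun p => ?_)
    simp only
    ring
  rw [e2]
  have i5 : Integrable g := g1.continuous.integrable_of_hasCompactSupport g2
  have b1 : |∫ p in b'.set, (b'.ef p - b.ef (Phi a p) * J a p) * g p| ≤
      ∫ p in b'.set, κ * |g p| := by
    rw [← Real.norm_eq_abs]
    refine (norm_integral_le_integral_norm _).trans ?_
    refine setIntegral_mono_on ?_ (i5.abs.const_mul κ).integrableOn (box_measurable b')
      fun p hp => ?_
    · have : (fun p => (b'.ef p - b.ef (Phi a p) * J a p) * g p) =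
          fun p => b'.ef p * g p - J a p * (b.ef (Phi a p) * g p) := by
        funext p; ring
      have i6 : Integrable (fun p => (b'.ef p - b.ef (Phi a p) * J a p) * g p) := by
        rw [this]
        exact i4.sub i3
      exact i6.norm.integrableOn
    · rw [norm_mul, Real.norm_eq_abs, Real.norm_eq_abs]
      exact mul_le_mul_of_nonneg_right (h.ef v p hp) (abs_nonneg _)
  refine b1.trans ?_
  rw [integral_const_mul]
  refine mul_le_mul_of_nonneg_left ?_ hκ
  refine (cs_set (by linarith) (box_measurable b') (h.vol v) g1.continuous g2).trans ?_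
  exact mul_le_mul_of_nonneg_left (Real.sqrt_le_sqrt (h.ms hf').2) (Real.sqrt_nonneg _)

end

end Pool.Agent.H791R3.Mult
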